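import Pool.Agent.Helper84.Core2.CharSum

/-!
Dimension four: quadratic maps satisfying (star) have an isotropic plane.
-/

set_option autoImplicit false

namespace Pool.Agent.Helper84.Core2

open Pool.Agent.Helper5.Core2 Finset Module

section

variable {V T : Type*} [AddCommGroup V] [Module (ZMod 2) V] [AddCommGroup T] [Module (ZMod 2) T]
  {q : V → T} {β : V →ₗ[ZMod 2] V →ₗ[ZMod 2] T}

lemma pair_indep {x y : V} (hx : x ≠ 0) (hy : y ≠ 0) (hxy : x ≠ y) :
    LinearIndependent (ZMod 2) ![x, y] := by
  rw [LinearIndependent.pair_iff]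
  intro s t hst
  rcases zmod_two_cases s with rfl | rfl <;> rcases zmod_two_cases t with rfl | rfl
  · exact ⟨rfl, rfl⟩
  · rw [zero_smul, one_smul, zero_add] at hst; exact absurd hst hy
  · rw [zero_smul, one_smul, add_zero] at hst; exact absurd hst hx
  · rw [one_smul, one_smul] at hst
    exfalso
    apply hxy
    have h1 : x = x + y + y := by rw [add_assoc, add_self_eq, add_zero]
    rw [h1, hst, zero_add]

lemma span_pair_finrank {x y : V} (hx : x ≠ 0) (hy : y ≠ 0) (hxy : x ≠ y) :
    finrank (ZMod 2) (Submodule.span (ZMod 2) {x, y}) = 2 := by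
  have h1 := finrank_span_eq_card (pair_indep hx hy hxy)
  rw [Matrix.range_cons, Matrix.range_cons, Matrix.range_empty, Set.union_empty,
    Set.singleton_union] at h1
  rw [h1, Fintype.card_fin]

lemma pair_iso (h : IsQ q β) {x y : V} (hxy : β x y = 0) :
    ∀ u ∈ Submodule.span (ZMod 2) {x, y}, ∀ v ∈ Submodule.span (ZMod 2) {x, y}, β u v = 0 := by
  intro u hu v hv
  rw [Submodule.mem_span_pair] at hu hv
  obtain ⟨a, b, rfl⟩ := hu
  obtain ⟨c, d, rfl⟩ := hv
  have hyx : β y x = 0 := by rw [beta_symm h, hxy]
  simp [beta_self h, hxy, hyx]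

lemma finrank_triple_le (a b c : T) :
    finrank (ZMod 2) (Submodule.span (ZMod 2) {a, b, c}) ≤ 3 := by
  classical
  have h1 := finrank_span_finset_le_card (R := ZMod 2) ({a, b, c} : Finset T)
  rw [Set.finrank] at h1
  have h2 : ((({a, b, c} : Finset T) : Finset T) : Set T) = {a, b, c} := by simp
  rw [h2] at h1
  exact h1.trans Finset.card_le_three

lemma finrank_pair_le (a b : T) :
    finrank (ZMod 2) (Submodule.span (ZMod 2) {a, b}) ≤ 2 := by
  classical
  have h1 := finrank_span_finset_le_card (R := ZMod 2) ({a, b} : Finset T)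
  rw [Set.finrank] at h1
  have h2 : ((({a, b} : Finset T) : Finset T) : Set T) = {a, b} := by simp
  rw [h2] at h1
  exact h1.trans Finset.card_le_two

/-- `four`, with `rank_cases` as a hypothesis -/
theorem four [Finite V] [Finite T]
    (rank_cases : ∀ θ : Module.Dual (ZMod 2) T,
      Module.finrank (ZMod 2) V = Module.finrank (ZMod 2) (RR β θ) ∨
      Module.finrank (ZMod 2) V = Module.finrank (ZMod 2) (RR β θ) + 2 ∨
      (Module.finrank (ZMod 2) V = Module.finrank (ZMod 2) (RR β θ) + 4 ∧
        ∀ r ∈ RR β θ, θ (q r) = 0))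
    (h : IsQ q β) (hV : Module.finrank (ZMod 2) V = 4) : Good β := by
  classical
  by_contra hbad
  have key1 : ∀ x y, x ≠ 0 → y ≠ 0 → x ≠ y → β x y ≠ 0 := by
    intro x y hx hy hxy h0
    apply hbad
    refine ⟨Submodule.span (ZMod 2) {x, y}, pair_iso h h0, ?_⟩
    rw [span_pair_finrank hx hy hxy, hV]
  have hker : ∀ k, k ≠ 0 → finrank (ZMod 2) (LinearMap.range (β k)) = 3 := by
    intro k hk
    have h1 : LinearMap.ker (β k) = Submodule.span (ZMod 2) {k} := by
      apply le_antisymm
      · intro v hv
        rw [LinearMap.mem_ker] at hv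
        by_cases hv0 : v = 0
        · rw [hv0]; exact Submodule.zero_mem _
        · by_cases hvk : k = v
          · rw [← hvk]; exact Submodule.mem_span_singleton_self k
          · exact absurd hv (key1 k v hk hv0 hvk)
      · rw [Submodule.span_singleton_le_iff_mem, LinearMap.mem_ker, beta_self h]
    have h2 := LinearMap.finrank_range_add_finrank_ker (β k)
    rw [h1, finrank_span_singleton hk, hV] at h2
    omega
  -- the value of star
  have hstar : ∀ x y, x ≠ 0 → y ≠ 0 → x ≠ y → ∃ k, k ≠ 0 ∧ (k = x ∨ k = y ∨ k = x + y) ∧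
      LinearMap.range (β k) = Submodule.span (ZMod 2) {q x, q y, q (x + y)} := by
    intro x y hx hy hxy
    have hxy0 : x + y ≠ 0 := by
      intro h0
      apply hxy
      have h1 : x = x + y + y := by rw [add_assoc, add_self_eq, add_zero]
      rw [h1, h0, zero_add]
    have hgen : ∀ k, k ≠ 0 → (∀ v, β k v ∈ Submodule.span (ZMod 2) {q x, q y, q (x + y)}) →
        LinearMap.range (β k) = Submodule.span (ZMod 2) {q x, q y, q (x + y)} := by
      intro k hk hkv
      apply Submodule.eq_of_le_of_finrank_le
      · rintro _ ⟨v, rfl⟩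
        exact hkv v
      · rw [hker k hk]
        exact finrank_triple_le _ _ _
    rcases h.star x y with h1 | h1 | h1
    · exact ⟨x, hx, Or.inl rfl, hgen x hx h1⟩
    · exact ⟨y, hy, Or.inr (Or.inl rfl), hgen y hy h1⟩
    · exact ⟨x + y, hxy0, Or.inr (Or.inr rfl), hgen _ hxy0 h1⟩
  have hq2 : ∀ x y, x ≠ 0 → y ≠ 0 → x ≠ y → q x ≠ q y ∧ q x ≠ 0 := by
    intro x y hx hy hxy
    obtain ⟨k, hk, -, hr⟩ := hstar x y hx hy hxy
    have h3 := hker k hk
    rw [hr] at h3
    constructor
    · intro h4
      rw [h4, Set.insert_eq_of_mem (Set.mem_insert _ _)] at h3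
      have := finrank_pair_le (q y) (q (x + y))
      omega
    · intro h4
      rw [h4, Submodule.span_insert_zero] at h3
      have := finrank_pair_le (q y) (q (x + y))
      omega
  have hother : ∀ x : V, ∃ y, y ≠ 0 ∧ y ≠ x := by
    intro x
    by_contra hcon
    push Not at hcon
    have h1 : (⊤ : Submodule (ZMod 2) V) ≤ Submodule.span (ZMod 2) {x} := by
      intro v _
      by_cases hv : v = 0
      · rw [hv]; exact Submodule.zero_mem _
      · rw [hcon v hv]; exact Submodule.mem_span_singleton_self x
    have h2 := Submodule.finrank_mono h1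
    rw [finrank_top, hV] at h2
    have h3 := finrank_span_le_card (R := ZMod 2) ({x} : Set V)
    simp at h3
    omega
  have hinj : Function.Injective q := by
    intro x y hxy
    by_contra hne
    by_cases hx : x = 0
    · subst hx
      have hy : y ≠ 0 := fun h0 => hne h0.symm
      obtain ⟨w, hw, hwy⟩ := hother y
      exact (hq2 y w hy hw (Ne.symm hwy)).2 (by rw [← hxy, q_zero h])
    · by_cases hy : y = 0
      · subst hy
        obtain ⟨w, hw, hwx⟩ := hother x
        exact (hq2 x w hx hw (Ne.symm hwx)).2 (by rw [hxy, q_zero h])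
      · exact (hq2 x y hx hy hne).1 hxy
  have hθ : ∀ θ : Module.Dual (ZMod 2) T, ∀ d ∈ RR β θ, θ (q d) = 0 := by
    intro θ d hd
    by_cases hd0 : d = 0
    · rw [hd0, q_zero h, map_zero]
    have hbig : 2 ≤ finrank (ZMod 2) (RR β θ) → θ (q d) = 0 := by
      intro hb
      have h1 : ∃ d' ∈ RR β θ, d' ∉ Submodule.span (ZMod 2) {d} := by
        by_contra hcon
        push Not at hcon
        have h2 := Submodule.finrank_mono (show RR β θ ≤ Submodule.span (ZMod 2) {d} from hcon)
        rw [finrank_span_singleton hd0] at h2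
        omega
      obtain ⟨d', hd', hdn⟩ := h1
      have hd'0 : d' ≠ 0 := fun h0 => hdn (by rw [h0]; exact Submodule.zero_mem _)
      have hne : d ≠ d' := fun h0 => hdn (by rw [← h0]; exact Submodule.mem_span_singleton_self d)
      obtain ⟨k, hk, hk2, hr⟩ := hstar d d' hd0 hd'0 hne
      have hkR : k ∈ RR β θ := by
        rcases hk2 with rfl | rfl | rfl
        · exact hd
        · exact hd'
        · exact Submodule.add_mem _ hd hd'
      have hqd : q d ∈ LinearMap.range (β k) := by
        rw [hr]; exact Submodule.subset_span (by simp)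
      obtain ⟨v, hv⟩ := hqd
      rw [← hv]
      exact hkR v
    rcases rank_cases θ with h1 | h1 | h1
    · exact hbig (by omega)
    · exact hbig (by omega)
    · exact h1.2 d hd
  -- the count
  have : Fintype V := Fintype.ofFinite V
  have hfin : Finite (Module.Dual (ZMod 2) T) := by
    have : Fintype T := Fintype.ofFinite T
    exact Finite.of_injective (fun θ : Module.Dual (ZMod 2) T => (θ : T → ZMod 2))
      DFunLike.coe_injective
  have : Fintype (Module.Dual (ZMod 2) T) := Fintype.ofFinite _
  have hcard : (Fintype.card V : ℤ) = 16 := by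
    rw [Module.card_eq_pow_finrank (K := ZMod 2), hV, ZMod.card]; norm_num
  have hS : ∀ θ : Module.Dual (ZMod 2) T, 16 ≤ SS q θ * SS q θ := by
    intro θ
    rw [SS_sq h θ, hcard]
    have h1 : ∀ d ∈ univ.filter (fun d => d ∈ RR β θ), chi (θ (q d)) = 1 := by
      intro d hd
      rw [Finset.mem_filter] at hd
      rw [hθ θ d hd.2, chi_zero]
    rw [Finset.sum_congr rfl h1, Finset.sum_const, nsmul_eq_mul, mul_one]
    have h2 : 0 < (univ.filter (fun d => d ∈ RR β θ)).card := by
      rw [Finset.card_pos]
      exact ⟨0, by simp⟩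
    have h3 : (1 : ℤ) ≤ ((univ.filter (fun d => d ∈ RR β θ)).card : ℤ) := by exact_mod_cast h2
    linarith
  have hS0 : SS q (0 : Module.Dual (ZMod 2) T) * SS q 0 = 256 := by
    have h1 : SS q (0 : Module.Dual (ZMod 2) T) = 16 := by
      rw [SS]
      simp only [LinearMap.zero_apply, chi_zero]
      rw [Finset.sum_const, nsmul_eq_mul, mul_one]
      exact_mod_cast hcard
    rw [h1]; norm_num
  have htot : ∑ θ : Module.Dual (ZMod 2) T, SS q θ * SS q θ =
      (Fintype.card (Module.Dual (ZMod 2) T) : ℤ) * 16 := by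
    have h1 : ∀ θ : Module.Dual (ZMod 2) T, SS q θ * SS q θ =
        ∑ v, ∑ w, chi (θ (q v + q w)) := by
      intro θ
      rw [SS, Finset.sum_mul_sum]
      refine Finset.sum_congr rfl fun v _ => Finset.sum_congr rfl fun w _ => ?_
      rw [map_add, chi_add]
    simp only [h1]
    rw [Finset.sum_comm]
    have h2 : ∀ v : V, ∑ θ : Module.Dual (ZMod 2) T, ∑ w, chi (θ (q v + q w)) =
        (Fintype.card (Module.Dual (ZMod 2) T) : ℤ) := by
      intro v
      rw [Finset.sum_comm]
      simp only [sum_chi_dual]
      rw [Finset.sum_eq_single v]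
      · rw [if_pos (add_self_eq _)]
      · intro w _ hw
        rw [if_neg]
        intro h0
        apply hw
        apply hinj
        have h3 : q w = q v + (q v + q w) := by rw [← add_assoc, add_self_eq, zero_add]
        rw [h3, h0, add_zero]
      · intro h0; exact absurd (Finset.mem_univ _) h0
    rw [Finset.sum_congr rfl fun v _ => h2 v, Finset.sum_const, nsmul_eq_mul]
    have h3 : ((univ : Finset V).card : ℤ) = 16 := by exact_mod_cast hcard
    rw [h3, mul_comm]
  have hlow : (256 : ℤ) + 16 * ((Fintype.card (Module.Dual (ZMod 2) T) : ℤ) - 1) ≤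
      ∑ θ : Module.Dual (ZMod 2) T, SS q θ * SS q θ := by
    rw [← Finset.add_sum_erase univ _ (Finset.mem_univ (0 : Module.Dual (ZMod 2) T)), hS0]
    have h1 : (16 : ℤ) * ((Fintype.card (Module.Dual (ZMod 2) T) : ℤ) - 1) =
        ∑ _θ ∈ univ.erase (0 : Module.Dual (ZMod 2) T), (16 : ℤ) := by
      rw [Finset.sum_const, Finset.card_erase_of_mem (Finset.mem_univ _), nsmul_eq_mul,
        Finset.card_univ, Nat.cast_sub Fintype.card_pos]
      push_cast; ring
    rw [h1]
    have h2 := Finset.sum_le_sum (s := univ.erase (0 : Module.Dual (ZMod 2) T))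
      (fun θ _ => hS θ)
    linarith
  rw [htot] at hlow
  linarith

end

end Pool.Agent.Helper84.Core2
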