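import Pool.Agent.Helper84.Core2.CharSum

/-!
Dimension five: there is a vector pairing into a line.
-/

set_option autoImplicit false

namespace Pool.Agent.Helper84.Core2

open Pool.Agent.Helper5.Core2 Finset Module

section

variable {V T : Type*} [AddCommGroup V] [Module (ZMod 2) V] [AddCommGroup T] [Module (ZMod 2) T]
  {q : V → T} {β : V →ₗ[ZMod 2] V →ₗ[ZMod 2] T}

open Classical in
lemma card_filter_sub [Fintype V] (W : Submodule (ZMod 2) V) :
    (univ.filter (fun v => v ∈ W)).card = 2 ^ finrank (ZMod 2) W := by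
  have h1 : Fintype.card W = 2 ^ finrank (ZMod 2) W := by
    rw [Module.card_eq_pow_finrank (K := ZMod 2) (V := W), ZMod.card]
  rw [← h1]
  exact (Fintype.card_subtype (fun v => v ∈ W)).symm

/-- the rank two sums -/
lemma SS_rank_two [Fintype V] (h : IsQ q β) (hV : finrank (ZMod 2) V = 5)
    (θ : Module.Dual (ZMod 2) T) (hr : finrank (ZMod 2) (RR β θ) = 3) : SS q θ ≤ 16 := by
  classical
  have hcard : (Fintype.card V : ℤ) = 32 := by
    rw [Module.card_eq_pow_finrank (K := ZMod 2), hV, ZMod.card]; norm_num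
  have h1 := SS_sq h θ
  rw [hcard] at h1
  have h2 : ∑ d ∈ univ.filter (fun d => d ∈ RR β θ), chi (θ (q d)) ≤ 8 := by
    have h3 := Finset.sum_le_card_nsmul (univ.filter (fun d => d ∈ RR β θ))
      (fun d => chi (θ (q d))) 1 (fun d _ => chi_le _)
    rw [card_filter_sub, hr] at h3
    simpa using h3
  nlinarith

/-- the rank four sums -/
lemma SS_rank_four [Fintype V]
    (club : ∀ (θ : Module.Dual (ZMod 2) T) (x y : V), θ (q x) = 0 → θ (q y) = 0 →
      θ (β x y) = 0 → x ∈ RR β θ ∨ y ∈ RR β θ ∨ x + y ∈ RR β θ)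
    (h : IsQ q β) (hV : finrank (ZMod 2) V = 5)
    (θ : Module.Dual (ZMod 2) T) (hr : finrank (ZMod 2) (RR β θ) = 1) : SS q θ ≤ -8 := by
  classical
  have hcard : (Fintype.card V : ℤ) = 32 := by
    rw [Module.card_eq_pow_finrank (K := ZMod 2), hV, ZMod.card]; norm_num
  have hR : (univ.filter (fun d => d ∈ RR β θ)).card = 2 := by
    rw [card_filter_sub, hr]; norm_num
  have hchi : ∀ a : ZMod 2, chi a = 2 * (if a = 0 then 1 else 0) - 1 := by
    intro a; revert a; decide
  have hsum : ∀ s : Finset V, ∑ v ∈ s, chi (θ (q v)) =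
      2 * ((s.filter (fun v => θ (q v) = 0)).card : ℤ) - s.card := by
    intro s
    simp only [hchi]
    rw [Finset.sum_sub_distrib, ← Finset.mul_sum, Finset.sum_boole]
    simp
  by_cases hex : ∃ a, θ (q a) = 0 ∧ a ∉ RR β θ
  · obtain ⟨a, ha, haR⟩ := hex
    -- the sum over the orthogonal complement
    obtain ⟨A, hA⟩ : ∃ A : Finset V, A = univ.filter (fun v => θ (β a v) = 0) := ⟨_, rfl⟩
    have h1 : ∑ v, chi (θ (β a v)) * chi (θ (q v)) = SS q θ := by
      have h2 : ∀ v, chi (θ (β a v)) * chi (θ (q v)) = chi (θ (q (v + a))) := by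
        intro v
        rw [h.hq, map_add, map_add, chi_add, chi_add, ha, chi_zero, beta_symm h v a]; ring
      simp only [h2]
      exact Equiv.sum_comp (Equiv.addRight a) (fun v => chi (θ (q v)))
    have h3 : ∀ f : V → ℤ, ∑ v, f v = ∑ v ∈ A, f v + ∑ v ∈ univ.filter (fun v => ¬ θ (β a v) = 0), f v := by
      intro f
      rw [hA, Finset.sum_filter_add_sum_filter_not]
    have h4 : ∑ v, chi (θ (β a v)) * chi (θ (q v)) = ∑ v ∈ A, chi (θ (q v)) -
        ∑ v ∈ univ.filter (fun v => ¬ θ (β a v) = 0), chi (θ (q v)) := by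
      rw [h3, sub_eq_add_neg, ← Finset.sum_neg_distrib]
      congr 1
      · refine Finset.sum_congr rfl fun v hv => ?_
        rw [hA, Finset.mem_filter] at hv
        rw [hv.2, chi_zero, one_mul]
      · refine Finset.sum_congr rfl fun v hv => ?_
        rw [Finset.mem_filter] at hv
        rw [(zmod_two_cases _).resolve_left hv.2, chi_one]; ring
    have h5 : SS q θ = ∑ v ∈ A, chi (θ (q v)) := by
      have h6 : SS q θ = ∑ v ∈ A, chi (θ (q v)) +
          ∑ v ∈ univ.filter (fun v => ¬ θ (β a v) = 0), chi (θ (q v)) := by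
        rw [SS]; exact h3 _
      rw [h4] at h1
      linarith
    have hA16 : (A.card : ℤ) = 16 := by
      have h6 := sum_chi_lin (V := V) (θ ∘ₗ (β a))
      rw [if_neg (fun h0 => haR (fun y => LinearMap.congr_fun h0 y))] at h6
      have h7 : ∑ v, chi ((θ ∘ₗ (β a)) v) = 2 * (A.card : ℤ) - 32 := by
        simp only [LinearMap.comp_apply, hchi]
        rw [Finset.sum_sub_distrib, ← Finset.mul_sum, Finset.sum_boole, ← hA]
        simp [← hcard]
      rw [h7] at h6
      linarith
    have hZ : (A.filter (fun v => θ (q v) = 0)).card ≤ 4 := by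
      have h6 : A.filter (fun v => θ (q v) = 0) ⊆ (univ.filter (fun d => d ∈ RR β θ)) ∪
          (univ.filter (fun d => d ∈ RR β θ)).image (fun d => a + d) := by
        intro v hv
        rw [Finset.mem_filter, hA, Finset.mem_filter] at hv
        rw [Finset.mem_union, Finset.mem_image, Finset.mem_filter]
        rcases club θ a v ha hv.2 hv.1.2 with h7 | h7 | h7
        · exact absurd h7 haR
        · exact Or.inl ⟨Finset.mem_univ _, h7⟩
        · refine Or.inr ⟨a + v, ?_, ?_⟩
          · rw [Finset.mem_filter]; exact ⟨Finset.mem_univ _, h7⟩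
          · rw [← add_assoc, add_self_eq, zero_add]
      calc _ ≤ _ := Finset.card_le_card h6
        _ ≤ _ := Finset.card_union_le _ _
        _ ≤ 2 + 2 := by
          refine Nat.add_le_add hR.le ?_
          exact Finset.card_image_le.trans hR.le
    rw [h5, hsum, hA16]
    have h8 : ((A.filter (fun v => θ (q v) = 0)).card : ℤ) ≤ 4 := by exact_mod_cast hZ
    linarith
  · push Not at hex
    have hZ : ((univ : Finset V).filter (fun v => θ (q v) = 0)).card ≤ 2 := by
      refine le_trans ?_ hR.le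
      apply Finset.card_le_card
      intro v hv
      rw [Finset.mem_filter] at hv ⊢
      exact ⟨hv.1, hex v hv.2⟩
    rw [SS, hsum]
    have h8 : (((univ : Finset V).filter (fun v => θ (q v) = 0)).card : ℤ) ≤ 2 := by
      exact_mod_cast hZ
    have h9 : ((univ : Finset V).card : ℤ) = 32 := by rw [Finset.card_univ]; exact hcard
    rw [h9]
    linarith

/-- two functionals of rank two -/
lemma two_rank_two [Finite V] [Finite T] (hV : finrank (ZMod 2) V = 5)
    (hT : finrank (ZMod 2) T = 3)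
    (hcon : ∀ n : V, ∀ b : T, n ≠ 0 → b ≠ 0 → ∃ v, β n v ≠ 0 ∧ β n v ≠ b)
    (θ₁ θ₂ : Module.Dual (ZMod 2) T) (h1 : θ₁ ≠ 0) (h2 : θ₂ ≠ 0) (h12 : θ₁ ≠ θ₂)
    (hr1 : finrank (ZMod 2) (RR β θ₁) = 3) (hr2 : finrank (ZMod 2) (RR β θ₂) = 3) : False := by
  have h3 := Submodule.finrank_sup_add_finrank_inf_eq (RR β θ₁) (RR β θ₂)
  have h4 : finrank (ZMod 2) ↑(RR β θ₁ ⊔ RR β θ₂) ≤ 5 := by
    rw [← hV]; exact Submodule.finrank_le _
  have h5 : 0 < finrank (ZMod 2) ↑(RR β θ₁ ⊓ RR β θ₂) := by omega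
  obtain ⟨k, hk⟩ := (Module.finrank_pos_iff_exists_ne_zero).mp h5
  have hk0 : (k : V) ≠ 0 := fun h0 => hk (Subtype.ext h0)
  -- the common kernel
  obtain ⟨f, hf⟩ : ∃ f : T →ₗ[ZMod 2] ZMod 2 × ZMod 2, f = θ₁.prod θ₂ := ⟨_, rfl⟩
  have hex : ∀ θ : Module.Dual (ZMod 2) T, θ ≠ 0 → ∃ t, θ t = 1 := by
    intro θ hθ
    by_contra hno
    push Not at hno
    exact hθ (LinearMap.ext fun t => (zmod_two_cases (θ t)).resolve_right (hno t))
  obtain ⟨a, ha⟩ := hex θ₁ h1
  obtain ⟨b, hb⟩ := hex θ₂ h2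
  obtain ⟨c, hc⟩ := hex (θ₁ + θ₂) (fun h0 => h12 (by
    ext t
    have h6 := LinearMap.congr_fun h0 t
    simp only [LinearMap.add_apply, LinearMap.zero_apply] at h6
    have : ∀ x y : ZMod 2, x + y = 0 → x = y := by decide
    exact this _ _ h6))
  have hsurj : LinearMap.range f = ⊤ := by
    have h6 : ((1 : ZMod 2), (0 : ZMod 2)) ∈ LinearMap.range f ∧
        ((0 : ZMod 2), (1 : ZMod 2)) ∈ LinearMap.range f := by
      have hfa : f a = (1, θ₂ a) := by rw [hf, ← ha]; rfl
      have hfb : f b = (θ₁ b, 1) := by rw [hf, ← hb]; rfl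
      have hfc : f c = (θ₁ c, θ₂ c) := by rw [hf]; rfl
      have hc' : θ₁ c + θ₂ c = 1 := hc
      have ha' : f a ∈ LinearMap.range f := ⟨a, rfl⟩
      have hb' : f b ∈ LinearMap.range f := ⟨b, rfl⟩
      have hc'' : f c ∈ LinearMap.range f := ⟨c, rfl⟩
      rw [hfa] at ha'
      rw [hfb] at hb'
      rw [hfc] at hc''
      rcases zmod_two_cases (θ₁ c) with hx | hx <;> rcases zmod_two_cases (θ₂ c) with hy | hy
      · rw [hx, hy] at hc'; exact absurd hc' (by decide)
      · rw [hx, hy] at hc''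
        refine ⟨?_, hc''⟩
        rcases zmod_two_cases (θ₂ a) with hz | hz
        · rw [hz] at ha'; exact ha'
        · rw [hz] at ha'
          have h7 := Submodule.add_mem _ ha' hc''
          have h8 : ((1 : ZMod 2), (1 : ZMod 2)) + (0, 1) = (1, 0) := by decide
          rw [h8] at h7; exact h7
      · rw [hx, hy] at hc''
        refine ⟨hc'', ?_⟩
        rcases zmod_two_cases (θ₁ b) with hz | hz
        · rw [hz] at hb'; exact hb'
        · rw [hz] at hb'
          have h7 := Submodule.add_mem _ hb' hc''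
          have h8 : ((1 : ZMod 2), (1 : ZMod 2)) + (1, 0) = (0, 1) := by decide
          rw [h8] at h7; exact h7
      · rw [hx, hy] at hc'; exact absurd hc' (by decide)
    rw [eq_top_iff]
    rintro ⟨x, y⟩ -
    have h7 : ((x, y) : ZMod 2 × ZMod 2) = x • (1, 0) + y • (0, 1) := by
      simp
    rw [h7]
    exact Submodule.add_mem _ (Submodule.smul_mem _ _ h6.1) (Submodule.smul_mem _ _ h6.2)
  have h8 := LinearMap.finrank_range_add_finrank_ker f
  rw [hsurj, finrank_top, hT, Module.finrank_prod, Module.finrank_self] at h8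
  have h9 : finrank (ZMod 2) (LinearMap.ker f) = 1 := by omega
  obtain ⟨w, hw0, hw⟩ := finrank_eq_one_iff'.mp h9
  obtain ⟨v, hv1, hv2⟩ := hcon (k : V) (w : T) hk0 (fun h0 => hw0 (Subtype.ext h0))
  have hmem : β k v ∈ LinearMap.ker f := by
    rw [LinearMap.mem_ker, hf]
    have hk1 := k.2.1 v
    have hk2 := k.2.2 v
    exact Prod.ext hk1 hk2
  obtain ⟨e, he⟩ := hw ⟨_, hmem⟩
  rcases zmod_two_cases e with he0 | he0
  · rw [he0, zero_smul] at he
    exact hv1 (congrArg Subtype.val he).symm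
  · rw [he0, one_smul] at he
    exact hv2 (congrArg Subtype.val he).symm

/-- `exists_small`, with `club` and `rank_cases` as hypotheses -/
theorem exists_small [Finite V] [Finite T]
    (club : ∀ (θ : Module.Dual (ZMod 2) T) (x y : V), θ (q x) = 0 → θ (q y) = 0 →
      θ (β x y) = 0 → x ∈ RR β θ ∨ y ∈ RR β θ ∨ x + y ∈ RR β θ)
    (rank_cases : ∀ θ : Module.Dual (ZMod 2) T,
      Module.finrank (ZMod 2) V = Module.finrank (ZMod 2) (RR β θ) ∨
      Module.finrank (ZMod 2) V = Module.finrank (ZMod 2) (RR β θ) + 2 ∨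
      (Module.finrank (ZMod 2) V = Module.finrank (ZMod 2) (RR β θ) + 4 ∧
        ∀ r ∈ RR β θ, θ (q r) = 0))
    (h : MinL q β)
    (hV : Module.finrank (ZMod 2) V = 5) (hT : Module.finrank (ZMod 2) T = 3) :
    ∃ n : V, ∃ b : T, n ≠ 0 ∧ b ≠ 0 ∧ ∀ v, β n v = 0 ∨ β n v = b := by
  classical
  by_contra hcon
  push Not at hcon
  have : Fintype V := Fintype.ofFinite V
  have hfin : Finite (Module.Dual (ZMod 2) T) := by
    have : Fintype T := Fintype.ofFinite T
    exact Finite.of_injective (fun θ : Module.Dual (ZMod 2) T => (θ : T → ZMod 2))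
      DFunLike.coe_injective
  have : Fintype (Module.Dual (ZMod 2) T) := Fintype.ofFinite _
  have hcard : (Fintype.card V : ℤ) = 32 := by
    rw [Module.card_eq_pow_finrank (K := ZMod 2), hV, ZMod.card]; norm_num
  have hN : Fintype.card (Module.Dual (ZMod 2) T) = 8 := by
    rw [Module.card_eq_pow_finrank (K := ZMod 2), Subspace.dual_finrank_eq, hT, ZMod.card]
    norm_num
  -- ranks
  have hrank : ∀ θ : Module.Dual (ZMod 2) T, θ ≠ 0 → finrank (ZMod 2) (RR β θ) = 3 ∨
      finrank (ZMod 2) (RR β θ) = 1 := by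
    intro θ hθ
    rcases rank_cases θ with h1 | h1 | h1
    · exfalso
      have h2 : RR β θ = ⊤ := Submodule.eq_top_of_finrank_eq h1.symm
      obtain ⟨v, w, hvw⟩ := h.spans θ hθ
      have h3 : v ∈ RR β θ := by rw [h2]; trivial
      exact hvw (h3 w)
    · left; omega
    · right; omega
  obtain ⟨D, hD⟩ : ∃ D : Finset (Module.Dual (ZMod 2) T),
      D = univ.filter (fun θ => θ ≠ 0 ∧ finrank (ZMod 2) (RR β θ) = 3) := ⟨_, rfl⟩
  have hD1 : D.card ≤ 1 := by
    rw [Finset.card_le_one]
    intro a ha b hb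
    rw [hD, Finset.mem_filter] at ha hb
    by_contra hab
    exact two_rank_two hV hT hcon a b ha.2.1 hb.2.1 hab ha.2.2 hb.2.2
  have hbound : ∀ θ : Module.Dual (ZMod 2) T, θ ≠ 0 →
      SS q θ ≤ -8 + 24 * (if θ ∈ D then 1 else 0) := by
    intro θ hθ
    split_ifs with h1
    · rw [hD, Finset.mem_filter] at h1
      have := SS_rank_two h.isQ hV θ h1.2.2
      linarith
    · have h2 : finrank (ZMod 2) (RR β θ) = 1 := by
        rcases hrank θ hθ with h3 | h3
        · exact absurd (by rw [hD, Finset.mem_filter]; exact ⟨Finset.mem_univ _, hθ, h3⟩) h1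
        · exact h3
      have := SS_rank_four club h.isQ hV θ h2
      linarith
  have hS0 : SS q (0 : Module.Dual (ZMod 2) T) = 32 := by
    rw [SS]
    simp only [LinearMap.zero_apply, chi_zero]
    rw [Finset.sum_const, nsmul_eq_mul, mul_one]
    exact_mod_cast hcard
  have hup : ∑ θ : Module.Dual (ZMod 2) T, SS q θ ≤ 0 := by
    rw [← Finset.add_sum_erase univ _ (Finset.mem_univ (0 : Module.Dual (ZMod 2) T)), hS0]
    have h2 := Finset.sum_le_sum (s := univ.erase (0 : Module.Dual (ZMod 2) T))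
      (fun θ hθ => hbound θ (Finset.ne_of_mem_erase hθ))
    rw [Finset.sum_add_distrib, Finset.sum_const, Finset.card_erase_of_mem (Finset.mem_univ _),
      Finset.card_univ, hN, ← Finset.mul_sum, Finset.sum_boole] at h2
    have h3 : ((univ.erase (0 : Module.Dual (ZMod 2) T)).filter (fun θ => θ ∈ D)).card ≤ 1 :=
      (Finset.card_le_card (fun θ hθ => (Finset.mem_filter.mp hθ).2)).trans hD1
    have h4 : ((((univ.erase (0 : Module.Dual (ZMod 2) T)).filter
        (fun θ => θ ∈ D)).card : ℕ) : ℤ) ≤ 1 := by exact_mod_cast h3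
    have h5 : ((univ.erase (0 : Module.Dual (ZMod 2) T)).sum (fun θ => SS q θ)) ≤ -56 + 24 *
        ((((univ.erase (0 : Module.Dual (ZMod 2) T)).filter (fun θ => θ ∈ D)).card : ℕ) : ℤ) := by
      refine h2.trans (le_of_eq ?_)
      norm_num
    linarith
  have hlow : (8 : ℤ) ≤ ∑ θ : Module.Dual (ZMod 2) T, SS q θ := by
    simp only [SS]
    rw [Finset.sum_comm]
    simp only [sum_chi_dual]
    rw [← Finset.sum_filter, Finset.sum_const, hN, nsmul_eq_mul]
    have h1 : 0 < (univ.filter (fun v : V => q v = 0)).card := by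
      rw [Finset.card_pos]
      exact ⟨0, by simp [q_zero h.isQ]⟩
    have h2 : (1 : ℤ) ≤ ((univ.filter (fun v : V => q v = 0)).card : ℤ) := by exact_mod_cast h1
    push_cast
    linarith
  linarith

end

end Pool.Agent.Helper84.Core2
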