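import Pool.Agent.Helper5.Core2.Defs

/-!
Character sums of quadratic maps over the field with two elements.
-/

set_option autoImplicit false

namespace Pool.Agent.Helper84.Core2

open Pool.Agent.Helper5.Core2 Finset

/-- the sign character -/
def chi (a : ZMod 2) : ℤ := if a = 0 then 1 else -1

lemma chi_zero : chi 0 = 1 := by decide

lemma chi_one : chi 1 = -1 := by decide

lemma chi_add (a b : ZMod 2) : chi (a + b) = chi a * chi b := by
  revert a b; decide

lemma chi_mul_self (a : ZMod 2) : chi a * chi a = 1 := by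
  revert a; decide

lemma chi_le (a : ZMod 2) : chi a ≤ 1 := by
  revert a; decide

lemma zmod_two_cases (a : ZMod 2) : a = 0 ∨ a = 1 := by
  revert a; decide

lemma sum_chi_lin {V : Type*} [AddCommGroup V] [Module (ZMod 2) V] [Fintype V]
    (φ : V →ₗ[ZMod 2] ZMod 2) [Decidable (φ = 0)] :
    ∑ v, chi (φ v) = if φ = 0 then (Fintype.card V : ℤ) else 0 := by
  split_ifs with h
  · subst h
    simp [chi_zero]
  · have h1 : ∃ v0, φ v0 = 1 := by
      by_contra hcon
      push Not at hcon
      apply h
      ext v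
      exact (zmod_two_cases (φ v)).resolve_right (hcon v)
    obtain ⟨v0, hv0⟩ := h1
    have h2 : ∑ v, chi (φ v) = ∑ v, chi (φ (v + v0)) :=
      (Equiv.sum_comp (Equiv.addRight v0) (fun v => chi (φ v))).symm
    have h3 : ∀ v, chi (φ (v + v0)) = - chi (φ v) := by
      intro v
      rw [map_add, chi_add, hv0, chi_one]; ring
    simp only [h3, Finset.sum_neg_distrib] at h2
    linarith

lemma sum_chi_dual {T : Type*} [AddCommGroup T] [Module (ZMod 2) T]
    [Fintype (Module.Dual (ZMod 2) T)] (t : T) [Decidable (t = 0)] :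
    ∑ θ : Module.Dual (ZMod 2) T, chi (θ t) =
      if t = 0 then (Fintype.card (Module.Dual (ZMod 2) T) : ℤ) else 0 := by
  classical
  have h1 := sum_chi_lin (V := Module.Dual (ZMod 2) T) (Module.Dual.eval (ZMod 2) T t)
  have h2 : (Module.Dual.eval (ZMod 2) T t = 0) ↔ t = 0 := by
    constructor
    · intro h
      rw [← Module.forall_dual_apply_eq_zero_iff (ZMod 2) t]
      intro φ
      exact LinearMap.congr_fun h φ
    · rintro rfl
      exact map_zero _
  simp only [Module.Dual.eval_apply] at h1
  rw [h1]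
  simp only [h2]

section

variable {V T : Type*} [AddCommGroup V] [Module (ZMod 2) V] [AddCommGroup T] [Module (ZMod 2) T]
  {q : V → T} {β : V →ₗ[ZMod 2] V →ₗ[ZMod 2] T}

lemma add_self_eq (t : T) : t + t = 0 := by
  have h : (2 : ZMod 2) • t = t + t := two_smul _ t
  rw [← h, (by decide : (2 : ZMod 2) = 0), zero_smul]

lemma q_zero (h : IsQ q β) : q 0 = 0 := by
  have h1 := h.hq 0 0
  rw [add_zero, map_zero, add_zero, add_self_eq] at h1
  exact h1

lemma beta_self (h : IsQ q β) (x : V) : β x x = 0 := by
  have h1 := h.hq x x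
  rw [add_self_eq x, q_zero h, add_self_eq (q x), zero_add] at h1
  exact h1.symm

lemma beta_symm (h : IsQ q β) (x y : V) : β x y = β y x := by
  have h1 := h.hq x y
  have h2 := h.hq y x
  rw [add_comm y x, h1, add_comm (q y) (q x)] at h2
  exact add_left_cancel h2

/-- the character sum -/
noncomputable def SS [Fintype V] (q : V → T) (θ : Module.Dual (ZMod 2) T) : ℤ :=
  ∑ v, chi (θ (q v))

open Classical in
lemma SS_sq [Fintype V] (h : IsQ q β) (θ : Module.Dual (ZMod 2) T) :
    SS q θ * SS q θ = (Fintype.card V : ℤ) *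
      ∑ d ∈ univ.filter (fun d => d ∈ RR β θ), chi (θ (q d)) := by
  have h1 : SS q θ * SS q θ = ∑ v, ∑ d, chi (θ (q v)) * chi (θ (q (v + d))) := by
    rw [SS, Finset.sum_mul_sum]
    refine Finset.sum_congr rfl fun v _ => ?_
    exact (Equiv.sum_comp (Equiv.addLeft v) (fun w => chi (θ (q v)) * chi (θ (q w)))).symm
  have h2 : ∀ v d, chi (θ (q v)) * chi (θ (q (v + d))) =
      chi (θ (q d)) * chi (θ (β d v)) := by
    intro v d
    rw [h.hq, map_add, map_add, chi_add, chi_add, beta_symm h v d]
    have := chi_mul_self (θ (q v))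
    linear_combination (chi (θ (q d)) * chi (θ (β d v))) * this
  simp only [h2] at h1
  rw [h1, Finset.sum_comm]
  simp only [← Finset.mul_sum]
  have h3 : ∀ d, ∑ v, chi (θ (β d v)) = if d ∈ RR β θ then (Fintype.card V : ℤ) else 0 := by
    intro d
    have h4 := sum_chi_lin (V := V) (θ ∘ₗ (β d))
    have h5 : (θ ∘ₗ (β d) = 0) ↔ d ∈ RR β θ := by
      constructor
      · intro h6 y
        exact LinearMap.congr_fun h6 y
      · intro h6
        ext y
        exact h6 y
    simp only [LinearMap.comp_apply] at h4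
    rw [h4]
    simp only [h5]
  simp only [h3]
  rw [Finset.mul_sum, Finset.sum_filter]
  refine Finset.sum_congr rfl fun d _ => ?_
  split_ifs <;> ring

end

end Pool.Agent.Helper84.Core2
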